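import Pool.Agent.H28.LF.F1
import Pool.Agent.H79.LF.DVS

/-!
# MP_c59857_nt (THEOREM U): row NPC of the board `lfu_modules` (the letters are not periodic)
-/

set_option autoImplicit false

open MeasureTheory ProbabilityTheory Filter Topology Finset
open scoped Nat ENNReal

namespace Pool.Agent.H10.LF

open Pool.Agent.H28.LF
open Pool.Agent.H67.AG (Inv)

theorem sg_meas : Measurable fun ω : Yi => sg (btY ω).1 := by
  have h : Measurable fun ω : Yi => (btY ω).1 :=
    measurable_fst.comp (measurable_fst.comp (measurable_pi_apply (0 : ℤ)))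
  exact (measurable_of_finite sg).comp h

theorem sg_int {ν : Measure Yi} [IsProbabilityMeasure ν] :
    Integrable (fun ω : Yi => sg (btY ω).1) ν := by
  refine Integrable.of_bound sg_meas.aestronglyMeasurable 1 (Eventually.of_forall fun ω => ?_)
  unfold sg
  split_ifs <;> simp

/-- periodicity along the multiples of a period -/
theorem per_mul {ν : Measure Yi} (hmp : MeasurePreserving shY ν ν) {S : Set Yi} {d : ℕ}
    (hS : ∀ᵐ ω ∂ν, (ω ∈ S ↔ shY^[d] ω ∈ S)) (j : ℕ) :
    ∀ᵐ ω ∂ν, (ω ∈ S ↔ shY^[d * j] ω ∈ S) := by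
  induction j with
  | zero => exact Eventually.of_forall fun ω => by simp
  | succ j ih =>
    have h1 : ∀ᵐ ω ∂ν, (shY^[d * j] ω ∈ S ↔ shY^[d] (shY^[d * j] ω) ∈ S) :=
      (hmp.iterate (d * j)).quasiMeasurePreserving.tendsto_ae.eventually hS
    filter_upwards [ih, h1] with ω h2 h3
    rw [h2, h3, ← Function.iterate_add_apply]
    have h4 : d * (j + 1) = d + d * j := by ring
    rw [h4]

/-- the integral over a periodic set vanishes -/
theorem int_per {ν : Measure Yi} (h : CompY ν) {W : ℕ} (hW : 0 < W) {B : Set Yi}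
    (hB : MeasurableSet B) (hBW : ∀ᵐ ω ∂ν, (ω ∈ B ↔ shY^[W] ω ∈ B)) :
    ∫ ω in B, sg (btY ω).1 ∂ν = 0 := by
  have := h.prob
  have hmp : MeasurePreserving shY ν ν := h.erg.toMeasurePreserving
  have h1 : shY^[W] ⁻¹' B =ᵐ[ν] B := by
    filter_upwards [hBW] with ω hω
    exact propext hω.symm
  obtain ⟨t, ht, htB, htW⟩ := (hmp.iterate W).quasiMeasurePreserving.exists_preimage_eq_of_preimage_ae
    hB.nullMeasurableSet h1
  rw [← setIntegral_congr_set htB]
  have hle : Inv shY W ≤ (inferInstance : MeasurableSpace Yi) := MeasurableSpace.invariants_le _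
  have h2 : MeasurableSet[Inv shY W] t := MeasurableSpace.measurableSet_invariants.2 ⟨ht, htW⟩
  rw [← setIntegral_condExp hle sg_int h2]
  have h3 := h.mr W hW
  rw [setIntegral_congr_ae (g := fun _ => (0 : ℝ)) ht (h3.mono fun ω hω _ => hω)]
  simp

/-- the part of a periodic set with a fixed sign on the squarefree places is a null set -/
theorem null_of {ν : Measure Yi} (h : CompY ν) {r : ℕ} (hr : 0 < r) {A : Set Yi}
    (hA : MeasurableSet A) (hAr : ∀ᵐ ω ∂ν, (ω ∈ A ↔ shY^[r] ω ∈ A)) {s : ℝ} (hs : s ≠ 0)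
    (hAs : ∀ ω, ω ∈ A → (btY ω).2 = true → sg (btY ω).1 = s) :
    ν (A ∩ {ω | (btY ω).2 = true}) = 0 := by
  have := h.prob
  have hmp : MeasurePreserving shY ν ν := h.erg.toMeasurePreserving
  set B : ℕ → Set Yi := fun w => A ∩ {ω | ∀ p : ℕ, p < w → p.Prime → ω ∉ flY (p ^ 2)} with hBdef
  have hBm : ∀ w, MeasurableSet (B w) := by
    intro w
    refine hA.inter ?_
    have h1 : {ω : Yi | ∀ p : ℕ, p < w → p.Prime → ω ∉ flY (p ^ 2)} =
        ⋂ p : ℕ, ⋂ _ : p < w, ⋂ _ : p.Prime, (flY (p ^ 2))ᶜ := by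
      ext ω
      simp
    rw [h1]
    exact MeasurableSet.iInter fun p => MeasurableSet.iInter fun _ => MeasurableSet.iInter fun _ =>
      (Pool.Agent.H79.LF.flY_meas _).compl
  have hB0 : ∀ w, ∫ ω in B w, sg (btY ω).1 ∂ν = 0 := by
    intro w
    have hW : 0 < r * (w ! ^ 2) := Nat.mul_pos hr (pow_pos (Nat.factorial_pos w) 2)
    refine int_per h hW (hBm w) ?_
    have h1 := per_mul hmp hAr (w ! ^ 2)
    have h2 : ∀ᵐ ω ∂ν, ∀ p : ℕ, p < w → p.Prime →
        (ω ∈ flY (p ^ 2) ↔ shY^[r * (w ! ^ 2)] ω ∈ flY (p ^ 2)) := by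
      rw [ae_all_iff]
      intro p
      by_cases hp : p < w ∧ p.Prime
      · have h3 : p ^ 2 ∣ r * (w ! ^ 2) :=
          (pow_dvd_pow_of_dvd (Nat.dvd_factorial hp.2.pos hp.1.le) 2).mul_left r
        obtain ⟨c, hc⟩ := h3
        have h4 := per_mul hmp ((h.per (p ^ 2) (pow_pos hp.2.pos 2)).mono fun ω hω => hω.1) c
        rw [← hc] at h4
        exact h4.mono fun ω hω _ _ => hω
      · exact Eventually.of_forall fun ω h5 h6 => absurd ⟨h5, h6⟩ hp
    filter_upwards [h1, h2] with ω h3 h4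
    rw [hBdef]
    simp only [Set.mem_inter_iff, Set.mem_ofPred_eq]
    refine and_congr h3 (forall_congr' fun p => forall_congr' fun h5 => forall_congr' fun h6 => ?_)
    exact not_congr (h4 p h5 h6)
  have hanti : Antitone B := by
    intro w w' hww ω hω
    exact ⟨hω.1, fun p hp hp' => hω.2 p (lt_of_lt_of_le hp hww) hp'⟩
  have hlim := tendsto_setIntegral_of_antitone hBm hanti
    ⟨0, (sg_int (ν := ν)).integrableOn⟩
  have hI : (⋂ w, B w) =ᵐ[ν] (A ∩ {ω | (btY ω).2 = true} : Set Yi) := by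
    filter_upwards [h.sqf] with ω hω
    refine propext ?_
    show ω ∈ (⋂ w, B w) ↔ ω ∈ A ∩ {ω | (btY ω).2 = true}
    rw [Set.mem_iInter, Set.mem_inter_iff, Set.mem_ofPred_eq]
    constructor
    · intro h1
      refine ⟨(h1 0).1, ?_⟩
      by_contra h2
      rw [Bool.not_eq_true] at h2
      obtain ⟨p, hp, hpf⟩ := hω.1 h2
      exact (h1 (p + 1)).2 p (Nat.lt_succ_self p) hp hpf
    · rintro ⟨h1, h2⟩ w
      refine ⟨h1, fun p _ hp hpf => ?_⟩
      have h3 := hω.2 ⟨p, hp, hpf⟩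
      rw [h2] at h3
      exact absurd h3 (by simp)
  have h0 : ∫ ω in A ∩ {ω | (btY ω).2 = true}, sg (btY ω).1 ∂ν = 0 := by
    rw [← setIntegral_congr_set hI]
    refine tendsto_nhds_unique hlim ?_
    simp only [hB0]
    exact tendsto_const_nhds
  have hm2 : MeasurableSet {ω : Yi | (btY ω).2 = true} := by
    have h1 : {ω : Yi | (btY ω).2 = true} = {ω : Yi | (btY ω).2 = false}ᶜ := by
      ext ω
      simp
    rw [h1]
    exact Pool.Agent.H79.LF.btY_meas.compl
  have h1 : ∫ ω in A ∩ {ω | (btY ω).2 = true}, sg (btY ω).1 ∂ν =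
      ∫ ω in A ∩ {ω | (btY ω).2 = true}, s ∂ν :=
    setIntegral_congr_fun (hA.inter hm2) fun ω hω => hAs ω hω.1 hω.2
  rw [h1, setIntegral_const, smul_eq_mul] at h0
  rcases mul_eq_zero.1 h0 with h2 | h2
  · exact (measureReal_eq_zero_iff (measure_ne_top ν _)).1 h2
  · exact absurd h2 hs

/-- Row NPC. -/
theorem pf_NPC : T_NPC := by
  intro u ix ν hu hix h r hr hper
  have := h.prob
  have hne : ix (false, true) ≠ ix (true, true) := fun he => hu.2 ((hix _ _).1 he).symm
  have hbm : Measurable fun ω : Yi => ix (ng (btY ω)) := by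
    have h1 : Measurable fun ω : Yi => btY ω := measurable_fst.comp (measurable_pi_apply (0 : ℤ))
    exact (measurable_of_finite fun b : Bool × Bool => ix (ng b)).comp h1
  have hAm : ∀ v : Fin 4, MeasurableSet {ω : Yi | ix (ng (btY ω)) = v} := fun v =>
    hbm (measurableSet_singleton v)
  have hAr : ∀ v : Fin 4, ∀ᵐ ω ∂ν, (ω ∈ {ω : Yi | ix (ng (btY ω)) = v} ↔
      shY^[r] ω ∈ {ω : Yi | ix (ng (btY ω)) = v}) := by
    intro v
    filter_upwards [hper] with ω hω
    show ix (ng (btY ω)) = v ↔ ix (ng (btY (shY^[r] ω))) = v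
    rw [hω]
  have hcase : ∀ ω : Yi, (btY ω).2 = true → ((btY ω).1 = true ∧ ix (ng (btY ω)) = ix (false, true)) ∨
      ((btY ω).1 = false ∧ ix (ng (btY ω)) = ix (true, true)) := by
    intro ω h2
    have h3 : ng (btY ω) = (!(btY ω).1, true) := by
      unfold ng
      rw [h2]
    rw [h3]
    cases h4 : (btY ω).1
    · exact Or.inr ⟨rfl, rfl⟩
    · exact Or.inl ⟨rfl, rfl⟩
  have h1 := null_of h hr (hAm (ix (false, true))) (hAr _) (s := 1) one_ne_zero (by
    intro ω hω h2
    rcases hcase ω h2 with ⟨h3, _⟩ | ⟨_, h4⟩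
    · rw [h3]
      rfl
    · exact absurd (hω.symm.trans h4) hne)
  have h2 := null_of h hr (hAm (ix (true, true))) (hAr _) (s := -1) (by norm_num) (by
    intro ω hω h2
    rcases hcase ω h2 with ⟨_, h4⟩ | ⟨h3, _⟩
    · exact absurd (hω.symm.trans h4) hne.symm
    · rw [h3]
      rfl)
  have h3 : ν {ω : Yi | (btY ω).2 = true} = 0 := by
    refine measure_mono_null ?_ (measure_union_null h1 h2)
    intro ω hω
    rcases hcase ω hω with ⟨_, h4⟩ | ⟨_, h4⟩
    · exact Or.inl ⟨h4, hω⟩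
    · exact Or.inr ⟨h4, hω⟩
  have h4 := (Pool.Agent.H79.LF.pf_DVS ν h).2
  rw [measureReal_def, h3] at h4
  norm_num at h4

end Pool.Agent.H10.LF
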